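import Pool.Agent.H25.DP.Targets3
import Pool.Agent.H85.DP.RED

/-!
# Two dilations: from local averages with a test polynomial to smoothed averages
-/

set_option autoImplicit false

open Complex MeasureTheory Set

namespace Pool.Agent.H62.DP.RDX

open Pool.Agent.H25.DL Pool.Agent.H25.DP Pool.Agent.H92.DL

lemma continuous_TP (X : ℕ) (ρ : ℕ → ℂ) : Continuous (TP X ρ) := by
  unfold TP
  exact continuous_finsetSum _ fun p _ => continuous_const.mul (continuous_en p)

lemma norm_gx (β ξ y : ℝ) : ‖gx β ξ (y * I)‖ = ‖gs β (y * I)‖ := by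
  unfold gx
  have h : (-((y : ℂ) * I * ξ)) = ((-(y * ξ) : ℝ) : ℂ) * I := by push_cast; ring
  rw [norm_mul, h, Complex.norm_exp_ofReal_mul_I, one_mul]

lemma continuous_gx (β ξ : ℝ) : Continuous (fun y : ℝ => gx β ξ (y * I)) := by
  unfold gx gs
  fun_prop

theorem rdx : T_RDX := by
  intro ι _ f Y d t₀ β hβ hY
  classical
  have ht0 := hY.one_le
  refine ⟨max (2 * t₀) 16, fun T hT j X ρ ξ H W M hTH hW hHW hM => ?_⟩
  have hT1 : 2 * t₀ ≤ T := (le_max_left _ _).trans hT
  have hT2 : 16 ≤ T := (le_max_right _ _).trans hT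
  have hTpos : 0 < T := by linarith
  have hlogT : Real.log T ≤ T / 2 := by
    have h1 : Real.log T = 2 * Real.log (Real.sqrt T) := by
      rw [Real.log_sqrt hTpos.le]; ring
    have h2 := Real.log_le_sub_one_of_pos (Real.sqrt_pos.2 hTpos)
    have h3 : Real.sqrt T * Real.sqrt T = T := Real.mul_self_sqrt hTpos.le
    have h4 : 4 ≤ Real.sqrt T := by
      rw [show (4 : ℝ) = Real.sqrt 16 by
        rw [show (16 : ℝ) = 4 ^ 2 by norm_num, Real.sqrt_sq (by norm_num)]]
      exact Real.sqrt_le_sqrt hT2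
    rw [h1]
    nlinarith
  have hlog0 : 0 ≤ Real.log T := Real.log_nonneg (by linarith)
  have hYc : ContinuousOn (fun t : ℝ => Y (1 / 2 + t * I)) (Icc (T / 2) (3 * T)) := by
    intro t ht
    have h1 : ContinuousAt Y (1 / 2 + t * I) := by
      refine (hY.diff _ ?_).continuousAt
      simp
      linarith [ht.1]
    have h2 : ContinuousAt (fun t : ℝ => (1 / 2 + t * I : ℂ)) t := by fun_prop
    exact (ContinuousAt.comp (f := fun t : ℝ => (1 / 2 + t * I : ℂ)) h1 h2).continuousWithinAt
  set G : ℝ → ℂ := fun t => Pj f j (1 / 2 + t * I) * Y (1 / 2 + t * I) with hG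
  have hGc : ContinuousOn G (Icc (T / 2) (3 * T)) := by
    have hP : Continuous (fun t : ℝ => Pj f j (1 / 2 + t * I)) := by
      simp_rw [Pj_eq]
      fun_prop
    exact hP.continuousOn.mul hYc
  have hwc : Continuous (fun u : ℝ => (om ((u - H) / W) : ℂ) * TP X ρ u) := by
    refine Continuous.mul ?_ (continuous_TP X ρ)
    refine Complex.continuous_ofReal.comp (continuous_om.comp ?_)
    fun_prop
  have hint : ∫ u in H..(H + W), (om ((u - H) / W) : ℂ) * KX f Y β ξ (Real.log T) j u *
      TP X ρ u = ∫ u in H..(H + W), ((om ((u - H) / W) : ℂ) * TP X ρ u) *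
        ∫ y in (-Real.log T)..(Real.log T), G (u + y) * gx β ξ (y * I) := by
    refine intervalIntegral.integral_congr fun u _ => ?_
    simp only [KX, hG]
    ring
  rw [hint]
  refine H85.DP.swap_weight (fun u : ℝ => (om ((u - H) / W) : ℂ) * TP X ρ u) G
    (fun y => gx β ξ (y * I)) (T / 2) (3 * T) H (H + W) (Real.log T) M (by linarith) hlog0
    (by linarith) (by linarith) hGc (continuous_gx β ξ) hwc ?_ ?_
  · intro y hy
    have hAV : ∫ u in H..(H + W), (om ((u - H) / W) : ℂ) * TP X ρ u * G (u + y) =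
        AT f Y j X ρ H W y := by
      unfold AT
      refine intervalIntegral.integral_congr fun u _ => ?_
      simp only [hG]
      ring
    rw [hAV]
    exact hM y hy
  · simp_rw [norm_gx]
    exact gs_int β _ hβ hlog0

end Pool.Agent.H62.DP.RDX
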