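import Pool.Agent.H25.DP.Targets3
import Pool.Agent.H52.DP.BD1
import Pool.Agent.H62.DP.RDX
import Pool.Agent.H89.Cubic.Div

/-!
# Two dilations: the average over a small set with a test polynomial
-/

set_option autoImplicit false

open Complex MeasureTheory Set

namespace Pool.Agent.H62.DP.BEX

open Pool.Agent.H25.DL Pool.Agent.H25.DP Pool.Agent.H52.DP.BD1

/-- Hoelder with exponents `2, 8, 4, 8` -/
lemma core1 {E : Set ℝ} {H K : ℝ} (hE : E ⊆ Icc H K) (hEm : volume E ≠ ⊤) {p q g : ℝ → ℝ}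
    (hp : Continuous p) (hq : Continuous q) (hg : Continuous g) :
    (∫ t in E, p t * q t * g t) ^ 8 ≤
      (∫ t in E, q t ^ 2) ^ 4 * (volume.real E * ∫ t in E, p t ^ 8) * (∫ t in E, g t ^ 4) ^ 2 := by
  have h1 := cs hE (P := q) (Q := fun t => p t * g t) hq (by fun_prop)
  have h2 := cs hE (P := fun t => p t ^ 2) (Q := fun t => g t ^ 2) (by fun_prop) (by fun_prop)
  have h3 := cs hE (P := fun _ => (1 : ℝ)) (Q := fun t => p t ^ 4) continuous_const (by fun_prop)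
  simp only [one_mul, one_pow, ← pow_mul] at h3
  rw [setIntegral_const, smul_eq_mul, mul_one] at h3
  simp only [← pow_mul] at h2
  norm_num at h2 h3
  have e1 : ∫ t in E, p t * q t * g t = ∫ t in E, q t * (p t * g t) := by
    congr 1
    ext t
    ring
  have e2 : ∫ t in E, (p t * g t) ^ 2 = ∫ t in E, p t ^ 2 * g t ^ 2 := by
    congr 1
    ext t
    ring
  rw [e1]
  rw [e2] at h1
  obtain ⟨a, ha⟩ : ∃ a : ℝ, a = ∫ t in E, q t ^ 2 := ⟨_, rfl⟩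
  obtain ⟨b, hb⟩ : ∃ b : ℝ, b = ∫ t in E, p t ^ 2 * g t ^ 2 := ⟨_, rfl⟩
  obtain ⟨c, hc⟩ : ∃ c : ℝ, c = ∫ t in E, p t ^ 4 := ⟨_, rfl⟩
  obtain ⟨d, hd⟩ : ∃ d : ℝ, d = ∫ t in E, g t ^ 4 := ⟨_, rfl⟩
  obtain ⟨h, hh⟩ : ∃ h : ℝ, h = ∫ t in E, p t ^ 8 := ⟨_, rfl⟩
  obtain ⟨x, hx⟩ : ∃ x : ℝ, x = ∫ t in E, q t * (p t * g t) := ⟨_, rfl⟩
  rw [← ha, ← hb, ← hx] at h1
  rw [← hb, ← hc, ← hd] at h2
  rw [← hc, ← hh] at h3
  rw [← ha, ← hd, ← hh, ← hx]
  have ha0 : 0 ≤ a := by rw [ha]; exact integral_nonneg fun t => by positivity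
  have hb0 : 0 ≤ b := by rw [hb]; exact integral_nonneg fun t => by positivity
  have hd0 : 0 ≤ d := by rw [hd]; exact integral_nonneg fun t => by positivity
  calc x ^ 8 = (x ^ 2) ^ 4 := by ring
    _ ≤ (a * b) ^ 4 := pow_le_pow_left₀ (sq_nonneg _) h1 4
    _ = a ^ 4 * (b ^ 2) ^ 2 := by ring
    _ ≤ a ^ 4 * (c * d) ^ 2 := by
        refine mul_le_mul_of_nonneg_left (pow_le_pow_left₀ (sq_nonneg _) h2 2) (by positivity)
    _ = a ^ 4 * c ^ 2 * d ^ 2 := by ring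
    _ ≤ a ^ 4 * (volume.real E * h) * d ^ 2 := by gcongr

/-- Hoelder with exponents `4, 4, 4, 4` -/
lemma core2 {E : Set ℝ} {H K : ℝ} (hE : E ⊆ Icc H K) (hEm : volume E ≠ ⊤) {p q g : ℝ → ℝ}
    (hp : Continuous p) (hq : Continuous q) (hg : Continuous g) :
    (∫ t in E, p t * q t * g t) ^ 4 ≤
      (volume.real E * ∫ t in E, p t ^ 4) * ((∫ t in E, q t ^ 4) * ∫ t in E, g t ^ 4) := by
  have h1 := cs hE (P := p) (Q := fun t => q t * g t) hp (by fun_prop)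
  have h2 := cs hE (P := fun t => q t ^ 2) (Q := fun t => g t ^ 2) (by fun_prop) (by fun_prop)
  have h3 := cs hE (P := fun _ => (1 : ℝ)) (Q := fun t => p t ^ 2) continuous_const (by fun_prop)
  simp only [one_mul, one_pow, ← pow_mul] at h3
  rw [setIntegral_const, smul_eq_mul, mul_one] at h3
  simp only [← pow_mul] at h2
  norm_num at h2 h3
  have e1 : ∫ t in E, p t * q t * g t = ∫ t in E, p t * (q t * g t) := by
    congr 1
    ext t
    ring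
  have e2 : ∫ t in E, (q t * g t) ^ 2 = ∫ t in E, q t ^ 2 * g t ^ 2 := by
    congr 1
    ext t
    ring
  rw [e1]
  rw [e2] at h1
  have ha0 : 0 ≤ ∫ t in E, p t ^ 2 := integral_nonneg fun t => by positivity
  have hb0 : 0 ≤ ∫ t in E, q t ^ 2 * g t ^ 2 := integral_nonneg fun t => by positivity
  calc (∫ t in E, p t * (q t * g t)) ^ 4 = ((∫ t in E, p t * (q t * g t)) ^ 2) ^ 2 := by ring
    _ ≤ ((∫ t in E, p t ^ 2) * ∫ t in E, q t ^ 2 * g t ^ 2) ^ 2 :=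
        pow_le_pow_left₀ (sq_nonneg _) h1 2
    _ = (∫ t in E, p t ^ 2) ^ 2 * (∫ t in E, q t ^ 2 * g t ^ 2) ^ 2 := by ring
    _ ≤ _ := mul_le_mul h3 h2 (by positivity) ((sq_nonneg _).trans h3)

/-- the fourth moment of the test polynomial -/
lemma tp4 (hMV : T_MV) {δ : ℝ} (hδ : 0 < δ) : ∃ C : ℝ, 0 < C ∧ ∀ (X : ℕ) (ρ : ℕ → ℂ), 1 ≤ X →
    (∀ p, ‖ρ p‖ ≤ (X : ℝ) ^ (-(1 / 2) : ℝ)) → ∀ H W : ℝ, 1 ≤ W →
    ∫ t in H..(H + W), ‖TP X ρ t‖ ^ 4 ≤ C * (X : ℝ) ^ δ * (W + (X : ℝ) ^ 2) := by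
  classical
  obtain ⟨C₁, hC₁, hM⟩ := hMV 1 4 one_pos
  obtain ⟨C₀, hC₀, hdiv⟩ := Pool.Agent.H89.Cubic.div_bound (δ / 4) (by positivity)
  refine ⟨C₁ * (C₀ * (4 : ℝ) ^ (δ / 4)) ^ 2, by positivity, fun X ρ hX hρ H W hW => ?_⟩
  have hX1 : (1 : ℝ) ≤ X := by exact_mod_cast hX
  have hX0 : (0 : ℝ) < X := by linarith
  set S := Finset.Ico X (2 * X) ×ˢ Finset.Ico X (2 * X) with hS
  set b : ℕ → ℂ := fun n => ∑ z ∈ S with z.1 * z.2 = n, ρ z.1 * ρ z.2 with hb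
  have hSm : ∀ z ∈ S, X * X ≤ z.1 * z.2 ∧ z.1 * z.2 < 4 * (X * X) ∧ z.1 ≠ 0 ∧ z.2 ≠ 0 := by
    intro z hz
    rw [hS, Finset.mem_product, Finset.mem_Ico, Finset.mem_Ico] at hz
    obtain ⟨⟨h1, h2⟩, h3, h4⟩ := hz
    refine ⟨Nat.mul_le_mul h1 h3, ?_, by omega, by omega⟩
    calc z.1 * z.2 < (2 * X) * (2 * X) := Nat.mul_lt_mul'' h2 h4
      _ = 4 * (X * X) := by ring
  have hsq : ∀ t : ℝ, TP X ρ t ^ 2 =
      ∑ n ∈ Finset.Ico (X * X) (4 * (X * X)), b n * en n (1 * t) := by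
    intro t
    rw [pow_two]
    unfold TP
    rw [Finset.sum_mul_sum, ← Finset.sum_product',
      ← Finset.sum_fiberwise_of_maps_to (t := Finset.Ico (X * X) (4 * (X * X)))
        (g := fun z : ℕ × ℕ => z.1 * z.2)]
    · refine Finset.sum_congr rfl fun n _ => ?_
      rw [hb]
      simp only
      rw [Finset.sum_mul]
      refine Finset.sum_congr rfl fun z hz => ?_
      rw [Finset.mem_filter] at hz
      have hz' := hSm z hz.1
      rw [← hz.2, one_mul, en_mul hz'.2.2.1 hz'.2.2.2]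
      ring
    · intro z hz
      have hz' := hSm z hz
      rw [Finset.mem_Ico]
      exact ⟨hz'.1, hz'.2.1⟩
  have hbn : ∀ n, ‖b n‖ ≤ C₀ * (4 : ℝ) ^ (δ / 4) * (X : ℝ) ^ (δ / 2) * (X : ℝ)⁻¹ := by
    intro n
    rcases (S.filter fun z : ℕ × ℕ => z.1 * z.2 = n).eq_empty_or_nonempty with he | ⟨z₀, hz₀⟩
    · rw [hb]
      simp only
      rw [he, Finset.sum_empty, norm_zero]
      positivity
    rw [Finset.mem_filter] at hz₀
    have hz' := hSm z₀ hz₀.1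
    have hn1 : 1 ≤ n := by
      rw [← hz₀.2]
      exact Nat.one_le_iff_ne_zero.2 (Nat.mul_ne_zero hz'.2.2.1 hz'.2.2.2)
    have hn4 : (n : ℝ) ≤ 4 * (X : ℝ) ^ 2 := by
      have h1 : n ≤ 4 * (X * X) := by rw [← hz₀.2]; exact hz'.2.1.le
      have h2 : (n : ℝ) ≤ ((4 * (X * X) : ℕ) : ℝ) := by exact_mod_cast h1
      push_cast at h2
      nlinarith
    have hterm : ∀ z ∈ S.filter (fun z : ℕ × ℕ => z.1 * z.2 = n),
        ‖ρ z.1 * ρ z.2‖ ≤ (X : ℝ)⁻¹ := by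
      intro z _
      rw [norm_mul]
      calc ‖ρ z.1‖ * ‖ρ z.2‖ ≤ (X : ℝ) ^ (-(1 / 2) : ℝ) * (X : ℝ) ^ (-(1 / 2) : ℝ) :=
            mul_le_mul (hρ _) (hρ _) (norm_nonneg _) (by positivity)
        _ = (X : ℝ)⁻¹ := by
            rw [← Real.rpow_add hX0, ← Real.rpow_neg_one]
            norm_num
    have hcard : ((S.filter fun z : ℕ × ℕ => z.1 * z.2 = n).card : ℝ) ≤ (n.divisors.card : ℝ) := by
      have h2 : (S.filter fun z : ℕ × ℕ => z.1 * z.2 = n).card ≤ n.divisors.card := by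
        refine Finset.card_le_card_of_injOn (fun z => z.1) ?_ ?_
        · intro z hz
          rw [Finset.coe_filter, Set.mem_setOf_eq] at hz
          rw [Finset.mem_coe, Nat.mem_divisors]
          exact ⟨⟨z.2, hz.2.symm⟩, by omega⟩
        · intro z hz w hw hzw
          rw [Finset.coe_filter, Set.mem_setOf_eq] at hz hw
          simp only at hzw
          have hz1 := (hSm z hz.1).2.2.1
          refine Prod.ext hzw ?_
          have h3 : z.1 * z.2 = z.1 * w.2 := by rw [hz.2, hzw, hw.2]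
          exact Nat.eq_of_mul_eq_mul_left (Nat.pos_of_ne_zero hz1) h3
      exact_mod_cast h2
    have hd : (n.divisors.card : ℝ) ≤ C₀ * (4 : ℝ) ^ (δ / 4) * (X : ℝ) ^ (δ / 2) := by
      calc (n.divisors.card : ℝ) ≤ C₀ * (n : ℝ) ^ (δ / 4) := hdiv n hn1
        _ ≤ C₀ * (4 * (X : ℝ) ^ 2) ^ (δ / 4) := by gcongr
        _ = C₀ * (4 : ℝ) ^ (δ / 4) * (X : ℝ) ^ (δ / 2) := by
            rw [Real.mul_rpow (by norm_num) (by positivity), ← Real.rpow_natCast (X : ℝ) 2,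
              ← Real.rpow_mul hX0.le, mul_assoc]
            congr 3
            push_cast
            ring
    calc ‖b n‖ ≤ ∑ z ∈ S with z.1 * z.2 = n, ‖ρ z.1 * ρ z.2‖ := norm_sum_le _ _
      _ ≤ ∑ z ∈ S with z.1 * z.2 = n, (X : ℝ)⁻¹ := Finset.sum_le_sum hterm
      _ = ((S.filter fun z : ℕ × ℕ => z.1 * z.2 = n).card : ℝ) * (X : ℝ)⁻¹ := by
          rw [Finset.sum_const, nsmul_eq_mul]
      _ ≤ C₀ * (4 : ℝ) ^ (δ / 4) * (X : ℝ) ^ (δ / 2) * (X : ℝ)⁻¹ := by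
          gcongr
          exact hcard.trans hd
  have hmv := hM (X * X) (C₀ * (4 : ℝ) ^ (δ / 4) * (X : ℝ) ^ (δ / 2) * (X : ℝ)⁻¹) b
    (Nat.one_le_iff_ne_zero.2 (Nat.mul_ne_zero (by omega) (by omega))) hbn H W hW
  have hlhs : ∀ t : ℝ, ‖TP X ρ t‖ ^ 4 =
      ‖∑ n ∈ Finset.Ico (X * X) (4 * (X * X)), b n * en n (1 * t)‖ ^ 2 := by
    intro t
    rw [← hsq t, norm_pow, ← pow_mul]
  simp_rw [hlhs]
  refine hmv.trans (le_of_eq ?_)
  have e1 : ((X : ℝ) ^ (δ / 2)) ^ 2 = (X : ℝ) ^ δ := by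
    rw [← Real.rpow_natCast ((X : ℝ) ^ (δ / 2)) 2, ← Real.rpow_mul hX0.le]
    congr 1
    push_cast
    ring
  push_cast
  have e2 : C₁ * (C₀ * (4 : ℝ) ^ (δ / 4) * (X : ℝ) ^ (δ / 2) * (X : ℝ)⁻¹) ^ 2 * ((X : ℝ) * X) *
      (W + (X : ℝ) * X) = C₁ * (C₀ * (4 : ℝ) ^ (δ / 4)) ^ 2 * ((X : ℝ) ^ (δ / 2)) ^ 2 *
      (((X : ℝ)⁻¹ * X) ^ 2) * (W + (X : ℝ) ^ 2) := by ring
  rw [e2, e1, inv_mul_cancel₀ hX0.ne']
  ring

/-- the sizes of the two classes -/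
lemma sizes {ι : Type} [Fintype ι] {f : ι → Fac} {r D T : ℝ} (hr : 2 ≤ r) (hD : D ≤ 1)
    (hT : 1 ≤ T) (P : ι → Prop) [DecidablePred P] (hP : ∀ l, P l → (f l).r = r)
    (hP' : ∀ l, ¬P l → (f l).r = 1) {j : ι → ℕ} (hj : j ∈ mains f 1 D T) :
    (SZ (fun l : {l // P l} => j l) : ℝ) ^ 2 * SZ (fun l : {l // ¬P l} => j l) ≤ T := by
  classical
  have hT0 : 0 < T := by linarith
  have h1 : ∑ l, (j l : ℝ) * (f l).r * Real.log 2 ≤ D * Real.log T := by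
    unfold mains at hj
    exact (Finset.mem_filter.1 hj).2
  have hlT : 0 ≤ Real.log T := Real.log_nonneg hT
  have hlog2 : 0 < Real.log 2 := Real.log_pos one_lt_two
  have hlogS : ∀ (κ : Type) [Fintype κ] (i : κ → ℕ),
      Real.log (SZ i) = ∑ l, (i l : ℝ) * Real.log 2 := by
    intro κ _ i
    rw [SZ_cast, Real.log_prod fun l _ => by positivity]
    refine Finset.sum_congr rfl fun l _ => ?_
    rw [Real.log_pow]
  have hM : (0 : ℝ) < SZ (fun l : {l // P l} => j l) := by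
    have := SZ_pos (fun l : {l // P l} => j l)
    exact_mod_cast this
  have hK : (0 : ℝ) < SZ (fun l : {l // ¬P l} => j l) := by
    have := SZ_pos (fun l : {l // ¬P l} => j l)
    exact_mod_cast this
  rw [← Real.log_le_log_iff (by positivity) hT0, Real.log_mul (by positivity) (by positivity),
    Real.log_pow, hlogS, hlogS]
  rw [← Fintype.sum_subtype_add_sum_subtype P (fun l => (j l : ℝ) * (f l).r * Real.log 2)] at h1
  have h2 : ∑ l : {l // P l}, (j l : ℝ) * (f l).r * Real.log 2 =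
      r * ∑ l : {l // P l}, (j l : ℝ) * Real.log 2 := by
    rw [Finset.mul_sum]
    refine Finset.sum_congr rfl fun l _ => ?_
    rw [hP l l.2]
    ring
  have h3 : ∑ l : {l // ¬P l}, (j l : ℝ) * (f l).r * Real.log 2 =
      ∑ l : {l // ¬P l}, (j l : ℝ) * Real.log 2 := by
    refine Finset.sum_congr rfl fun l _ => ?_
    rw [hP' l l.2]
    ring
  have h4 : 0 ≤ ∑ l : {l // P l}, (j l : ℝ) * Real.log 2 :=
    Finset.sum_nonneg fun l _ => by positivity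
  rw [h2, h3] at h1
  push_cast
  nlinarith

lemma bnd {c C s e T R : ℝ} (hc : 0 ≤ c) (hcC : c ≤ C) (hs0 : 0 ≤ s) (hs : s ≤ T) (he : 0 ≤ e)
    (hT : 1 ≤ T) (hR : R ≤ T) : c * s ^ e * (T + R) ≤ 2 * C * T ^ (1 + e) := by
  have hT0 : 0 < T := by linarith
  have h1 : s ^ e ≤ T ^ e := Real.rpow_le_rpow hs0 hs he
  have h2 : 0 ≤ s ^ e := Real.rpow_nonneg hs0 _
  have hC : 0 ≤ C := hc.trans hcC
  calc c * s ^ e * (T + R) ≤ c * s ^ e * (T + T) := by gcongr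
    _ ≤ C * T ^ e * (T + T) := by gcongr
    _ = 2 * C * (T * T ^ e) := by ring
    _ = 2 * C * T ^ (1 + e) := by
        rw [Real.rpow_add hT0, Real.rpow_one]

/-- the numerical step -/
lemma numeric {X B m C T ε : ℝ} (hX : 0 ≤ X) (hT : 1 ≤ T) (hε : 0 < ε) (hC : 1 ≤ C)
    (hB : B = 2 * C * T ^ (1 + ε / 28)) (hm0 : 0 ≤ m) (hm : m ≤ T ^ (1 - ε))
    (hTb : (2 * C) ^ 7 ≤ T ^ (ε / 4)) (h : X ^ 8 ≤ B ^ 7 * m ∨ X ^ 4 ≤ B ^ 3 * m) :
    X ≤ T ^ (1 - ε / 16) := by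
  have hT0 : 0 < T := by linarith
  have hB0 : 0 < B := by rw [hB]; positivity
  have hgoal8 : (T ^ (1 - ε / 16)) ^ 8 = T ^ (8 - ε / 2) := by
    rw [← Real.rpow_natCast (T ^ (1 - ε / 16)) 8, ← Real.rpow_mul hT0.le]
    congr 1
    push_cast
    ring
  have hgoal4 : (T ^ (1 - ε / 16)) ^ 4 = T ^ (4 - ε / 4) := by
    rw [← Real.rpow_natCast (T ^ (1 - ε / 16)) 4, ← Real.rpow_mul hT0.le]
    congr 1
    push_cast
    ring
  have hB7 : B ^ 7 ≤ T ^ (7 + ε / 2) := by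
    rw [hB, mul_pow]
    calc (2 * C) ^ 7 * (T ^ (1 + ε / 28)) ^ 7 ≤ T ^ (ε / 4) * (T ^ (1 + ε / 28)) ^ 7 := by gcongr
      _ = T ^ (7 + ε / 2) := by
          rw [← Real.rpow_natCast (T ^ (1 + ε / 28)) 7, ← Real.rpow_mul hT0.le,
            ← Real.rpow_add hT0]
          congr 1
          push_cast
          ring
  have hB3 : B ^ 3 ≤ T ^ (3 + ε / 2) := by
    rw [hB, mul_pow]
    have h1 : (2 * C) ^ 3 ≤ (2 * C) ^ 7 := pow_le_pow_right₀ (by linarith) (by norm_num)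
    calc (2 * C) ^ 3 * (T ^ (1 + ε / 28)) ^ 3 ≤ T ^ (ε / 4) * (T ^ (1 + ε / 28)) ^ 3 := by
          have := h1.trans hTb
          gcongr
      _ = T ^ (ε / 4 + (1 + ε / 28) * 3) := by
          rw [← Real.rpow_natCast (T ^ (1 + ε / 28)) 3, ← Real.rpow_mul hT0.le,
            ← Real.rpow_add hT0]
          congr 1
      _ ≤ T ^ (3 + ε / 2) := by
          refine Real.rpow_le_rpow_of_exponent_le hT ?_
          linarith
  rcases h with h | h
  · refine le_of_pow_le_pow_left₀ (n := 8) (by norm_num) (by positivity) ?_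
    rw [hgoal8]
    calc X ^ 8 ≤ B ^ 7 * m := h
      _ ≤ T ^ (7 + ε / 2) * T ^ (1 - ε) := mul_le_mul hB7 hm hm0 (by positivity)
      _ = T ^ (8 - ε / 2) := by
          rw [← Real.rpow_add hT0]
          congr 1
          ring
  · refine le_of_pow_le_pow_left₀ (n := 4) (by norm_num) (by positivity) ?_
    rw [hgoal4]
    calc X ^ 4 ≤ B ^ 3 * m := h
      _ ≤ T ^ (3 + ε / 2) * T ^ (1 - ε) := mul_le_mul hB3 hm hm0 (by positivity)
      _ = T ^ (4 - ε / 2) := by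
          rw [← Real.rpow_add hT0]
          congr 1
          ring
      _ ≤ T ^ (4 - ε / 4) := by
          refine Real.rpow_le_rpow_of_exponent_le hT ?_
          linarith

theorem bex (h1 : T_MP) (h2 : T_MV) : T_BEX := by
  intro ι _ f r D x₂ ε hr hf hD0 hD1 hx0 hx1 hε
  classical
  have he : 0 < ε / 28 := by positivity
  obtain ⟨P, hPdef⟩ : ∃ P : ι → Prop, P = fun l => (f l).r = r := ⟨_, rfl⟩
  have hPa : ∀ l, P l → (f l).r = r := by
    intro l hl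
    rw [hPdef] at hl
    exact hl
  have hPb : ∀ l, ¬P l → (f l).r = 1 := by
    intro l hl
    rw [hPdef] at hl
    exact (hf l).resolve_left hl
  obtain ⟨C₁, hC₁, m₁⟩ := h1 {l // ¬P l} (fun l => f l) 1 _ 1 (fun l => hPb l l.2) one_pos he
  obtain ⟨C₂, hC₂, m₂⟩ := h1 {l // ¬P l} (fun l => f l) 1 _ 2 (fun l => hPb l l.2) one_pos he
  obtain ⟨C₃, hC₃, m₃⟩ := h1 {l // P l} (fun l => f l) r _ 2 (fun l => hPa l l.2)
    (by linarith) he
  obtain ⟨C₄, hC₄, m₄⟩ := h1 {l // P l} (fun l => f l) r _ 4 (fun l => hPa l l.2)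
    (by linarith) he
  obtain ⟨C₅, hC₅, m₅⟩ := tp4 h2 he
  obtain ⟨C, hC⟩ : ∃ C : ℝ, C = C₁ + C₂ + C₃ + C₄ + C₅ + 1 := ⟨_, rfl⟩
  have hC1 : 1 ≤ C := by rw [hC]; linarith
  have hCC : C₁ ≤ C ∧ C₂ ≤ C ∧ C₃ ≤ C ∧ C₄ ≤ C ∧ C₅ ≤ C := by
    rw [hC]
    refine ⟨?_, ?_, ?_, ?_, ?_⟩ <;> linarith
  obtain ⟨T₂, hT₂⟩ : ∃ T₂ : ℝ, ∀ T : ℝ, T₂ ≤ T → (2 * C) ^ 7 ≤ T ^ (ε / 4) := by
    have h1 := (tendsto_rpow_atTop (show 0 < ε / 4 by positivity)).eventually_ge_atTop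
      ((2 * C) ^ 7)
    rw [Filter.eventually_atTop] at h1
    exact h1
  refine ⟨ε / 16, max T₂ 1, by positivity, fun T hT j hj X ρ y hXT hρ _ E hEm hEs hvE => ?_⟩
  have hTT₂ : T₂ ≤ T := (le_max_left _ _).trans hT
  have hT1 : 1 ≤ T := (le_max_right _ _).trans hT
  have hT0 : 0 < T := by linarith
  rcases Nat.eq_zero_or_pos X with hX | hX
  · subst hX
    have : ∀ u : ℝ, TP 0 ρ u = 0 := by intro u; simp [TP]
    simp only [this, norm_zero, mul_zero, integral_zero]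
    positivity
  have hX1 : 1 ≤ X := hX
  have hX1' : (1 : ℝ) ≤ X := by exact_mod_cast hX1
  obtain ⟨j₁, hj₁⟩ : ∃ j₁ : {l // P l} → ℕ, j₁ = fun l : {l // P l} => j l := ⟨_, rfl⟩
  obtain ⟨j₂, hj₂⟩ : ∃ j₂ : {l // ¬P l} → ℕ, j₂ = fun l : {l // ¬P l} => j l := ⟨_, rfl⟩
  have hMK : (SZ j₁ : ℝ) ^ 2 * SZ j₂ ≤ T := by
    rw [hj₁, hj₂]
    exact sizes hr hD1.le hT1 P hPa hPb hj
  have hM1 : (1 : ℝ) ≤ SZ j₁ := by exact_mod_cast SZ_pos j₁
  have hK1 : (1 : ℝ) ≤ SZ j₂ := by exact_mod_cast SZ_pos j₂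
  have hM2 : (SZ j₁ : ℝ) ^ 2 ≤ T := by nlinarith [sq_nonneg (SZ j₁ : ℝ)]
  have hMT : (SZ j₁ : ℝ) ≤ T := by nlinarith
  have hM2' : (1 : ℝ) ≤ (SZ j₁ : ℝ) ^ 2 := one_le_pow₀ hM1
  have hKT : (SZ j₂ : ℝ) ≤ T := by
    refine le_trans ?_ hMK
    have := mul_le_mul_of_nonneg_right hM2' (by linarith : (0 : ℝ) ≤ SZ j₂)
    linarith
  have hX2 : (X : ℝ) ^ 2 ≤ T := by
    calc (X : ℝ) ^ 2 ≤ (T ^ x₂) ^ 2 := by gcongr
      _ = T ^ (x₂ * 2) := by
          rw [← Real.rpow_natCast (T ^ x₂) 2, ← Real.rpow_mul hT0.le]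
          norm_num
      _ ≤ T ^ (1 : ℝ) := Real.rpow_le_rpow_of_exponent_le hT1 (by linarith)
      _ = T := Real.rpow_one T
  have hXT1 : (X : ℝ) ≤ T := by nlinarith
  -- the functions
  obtain ⟨p, hp⟩ : ∃ p : ℝ → ℝ, p = fun t : ℝ => ‖Pj (fun l : {l // P l} => f l) j₁
    (1 / 2 + t * I)‖ := ⟨_, rfl⟩
  obtain ⟨q, hq⟩ : ∃ q : ℝ → ℝ, q = fun t : ℝ => ‖Pj (fun l : {l // ¬P l} => f l) j₂
    (1 / 2 + t * I)‖ := ⟨_, rfl⟩
  obtain ⟨g, hg⟩ : ∃ g : ℝ → ℝ, g = fun t : ℝ => ‖TP X ρ t‖ := ⟨_, rfl⟩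
  have hpc : Continuous p := by
    rw [hp]
    unfold Pj
    exact (continuous_finsetProd _ fun (l : {l // P l}) _ => B_continuous (f l) (j₁ l)).norm
  have hqc : Continuous q := by
    rw [hq]
    unfold Pj
    exact (continuous_finsetProd _ fun (l : {l // ¬P l}) _ => B_continuous (f l) (j₂ l)).norm
  have hgc : Continuous g := by
    rw [hg]
    exact (RDX.continuous_TP X ρ).norm
  have hpq : ∀ t : ℝ, ‖Pj f j (1 / 2 + (t + y : ℝ) * I)‖ * ‖TP X ρ t‖ =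
      p (t + y) * q (t + y) * g t := by
    intro t
    rw [Pj_split f P j, norm_mul, hp, hq, hg, hj₁, hj₂]
  simp_rw [hpq]
  have hpyc : Continuous fun t => p (t + y) := hpc.comp (by fun_prop)
  have hqyc : Continuous fun t => q (t + y) := hqc.comp (by fun_prop)
  have hp0 : ∀ t, 0 ≤ p t := fun t => by rw [hp]; exact norm_nonneg _
  have hq0 : ∀ t, 0 ≤ q t := fun t => by rw [hq]; exact norm_nonneg _
  have hg0 : ∀ t, 0 ≤ g t := fun t => by rw [hg]; exact norm_nonneg _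
  have hX0 : 0 ≤ ∫ t in E, p (t + y) * q (t + y) * g t := by
    refine integral_nonneg fun t => ?_
    have := hp0 (t + y)
    have := hq0 (t + y)
    have := hg0 t
    positivity
  have hEs' : E ⊆ Icc T (T + T) := by rwa [← two_mul]
  have hvol : volume E ≠ ⊤ := ne_top_of_le_ne_top (by simp) (measure_mono hEs)
  -- the moments
  have shift : ∀ (h : ℝ → ℝ), ∫ t in T..(T + T), h (t + y) =
      ∫ t in (T + y)..(T + y + T), h t := by
    intro h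
    rw [intervalIntegral.integral_comp_add_right]
    congr 1
    ring
  have a₁ : ∫ t in E, q (t + y) ^ 2 ≤ 2 * C * T ^ (1 + ε / 28) := by
    refine (set_le hT0.le hEs' (P := fun t => q (t + y) ^ 2) (by fun_prop)
      fun t => by positivity).trans ?_
    rw [shift (fun t => q t ^ 2)]
    have := m₁ j₂ (T + y) T hT1
    rw [hq]
    simp only [mul_one] at this ⊢
    refine this.trans ?_
    refine bnd hC₁.le hCC.1 (by linarith) hKT he.le hT1 ?_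
    simpa using hKT
  have a₂ : (SZ j₂ : ℝ) ^ 2 ≤ T → ∫ t in E, q (t + y) ^ 4 ≤ 2 * C * T ^ (1 + ε / 28) := by
    intro hK2
    refine (set_le hT0.le hEs' (P := fun t => q (t + y) ^ 4) (by fun_prop)
      fun t => by positivity).trans ?_
    rw [shift (fun t => q t ^ 4)]
    have := m₂ j₂ (T + y) T hT1
    rw [hq]
    exact this.trans (bnd hC₂.le hCC.2.1 (by linarith) hKT he.le hT1 hK2)
  have a₃ : ∫ t in E, p (t + y) ^ 4 ≤ 2 * C * T ^ (1 + ε / 28) := by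
    refine (set_le hT0.le hEs' (P := fun t => p (t + y) ^ 4) (by fun_prop)
      fun t => by positivity).trans ?_
    rw [shift (fun t => p t ^ 4)]
    have := m₃ j₁ (T + y) T hT1
    rw [hp]
    exact this.trans (bnd hC₃.le hCC.2.2.1 (by linarith) hMT he.le hT1 hM2)
  have a₄ : (SZ j₁ : ℝ) ^ 4 ≤ T → ∫ t in E, p (t + y) ^ 8 ≤ 2 * C * T ^ (1 + ε / 28) := by
    intro hM4
    refine (set_le hT0.le hEs' (P := fun t => p (t + y) ^ 8) (by fun_prop)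
      fun t => by positivity).trans ?_
    rw [shift (fun t => p t ^ 8)]
    have := m₄ j₁ (T + y) T hT1
    rw [hp]
    exact this.trans (bnd hC₄.le hCC.2.2.2.1 (by linarith) hMT he.le hT1 hM4)
  have a₅ : ∫ t in E, g t ^ 4 ≤ 2 * C * T ^ (1 + ε / 28) := by
    refine (set_le hT0.le hEs' (P := fun t => g t ^ 4) (by fun_prop)
      fun t => by positivity).trans ?_
    have := m₅ X ρ hX1 hρ T T hT1
    rw [hg]
    exact this.trans (bnd hC₅.le hCC.2.2.2.2 (by linarith) hXT1 he.le hT1 hX2)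
  obtain ⟨B, hB⟩ : ∃ B : ℝ, B = 2 * C * T ^ (1 + ε / 28) := ⟨_, rfl⟩
  rw [← hB] at a₁ a₃ a₅
  rw [← hB] at a₂ a₄
  have hB0 : 0 ≤ B := by rw [hB]; positivity
  have hm0 : 0 ≤ volume.real E := measureReal_nonneg
  refine numeric hX0 hT1 hε hC1 hB hm0 hvE (hT₂ T hTT₂) ?_
  have n₁ : 0 ≤ ∫ t in E, q (t + y) ^ 2 := integral_nonneg fun t => by positivity
  have n₂ : 0 ≤ ∫ t in E, q (t + y) ^ 4 := integral_nonneg fun t => by positivity
  have n₃ : 0 ≤ ∫ t in E, p (t + y) ^ 4 := integral_nonneg fun t => by positivity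
  have n₄ : 0 ≤ ∫ t in E, p (t + y) ^ 8 := integral_nonneg fun t => by positivity
  have n₅ : 0 ≤ ∫ t in E, g t ^ 4 := integral_nonneg fun t => by positivity
  rcases le_or_gt ((SZ j₂ : ℝ) ^ 2) T with hK2 | hK2
  · right
    have hc := core2 hEs hvol hpyc hqyc hgc
    refine hc.trans ?_
    calc volume.real E * (∫ t in E, p (t + y) ^ 4) *
        ((∫ t in E, q (t + y) ^ 4) * ∫ t in E, g t ^ 4) ≤ volume.real E * B * (B * B) := by
          gcongr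
          exact a₂ hK2
      _ = B ^ 3 * volume.real E := by ring
  · left
    have hM4 : (SZ j₁ : ℝ) ^ 4 ≤ T := by
      by_contra hcon
      push Not at hcon
      have h3 : T ^ 2 < (SZ j₁ : ℝ) ^ 4 * (SZ j₂ : ℝ) ^ 2 := by nlinarith
      have h4 : ((SZ j₁ : ℝ) ^ 2 * SZ j₂) ^ 2 ≤ T ^ 2 :=
        pow_le_pow_left₀ (by positivity) hMK 2
      nlinarith
    have hc := core1 hEs hvol hpyc hqyc hgc
    refine hc.trans ?_
    calc (∫ t in E, q (t + y) ^ 2) ^ 4 * (volume.real E * ∫ t in E, p (t + y) ^ 8) *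
        (∫ t in E, g t ^ 4) ^ 2 ≤ B ^ 4 * (volume.real E * B) * B ^ 2 := by
          gcongr
          exact a₄ hM4
      _ = B ^ 7 * volume.real E := by ring

end Pool.Agent.H62.DP.BEX
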